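import Pool.Agent.H567Z.PsDefs
import Pool.Agent.H567Z.Pseud

set_option autoImplicit false

namespace Pool.Agent.Results.MP_7406cc_gt.SplittingNumber

open Pool.Agent.H567Z.Ps Pool.Agent.Helper292.ForceCH

/-- All pseudoradial minimal abelian groups are metrizable iff the splitting number is `ω₁`;
this holds under the continuum hypothesis and fails under `ω₁ < 𝔭`, and both can be forced. -/
theorem result : (Q1 ↔ Split) ∧
    ((∃ E : Om → Set ℕ, Function.Surjective E) → Q1) ∧ (PAbove → ¬ Q1) ∧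
    (∃ (P : Type) (_ : Preorder P), Nonempty P ∧ ∀ p : P,
      p ∈ OmegaOnePreserved P ∧ p ∈ CHHolds P) ∧
    (∃ (P : Type) (_ : Preorder P), Nonempty P ∧ ∀ p : P,
      p ∈ OmegaOnePreserved P ∧ p ∈ PAboveHolds P) := by
  refine ⟨⟨split_of_q1, q1_of_split⟩, fun h => q1_of_split (split_of_ch h),
    fun h h' => not_split h (split_of_q1 h'), ?_, force_p⟩
  obtain ⟨P, i, h1, h2⟩ := exists_forcing
  exact ⟨P, i, h1, fun p => ⟨(h2 p).1, (h2 p).2.2⟩⟩

end Pool.Agent.Results.MP_7406cc_gt.SplittingNumber
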